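import Pool.Agent.Run7.h902.ArthurLab

set_option autoImplicit false

/-!
# Arthur's decomposition is a family of finite inequalities for two places at a time

Let `X` be the set of places, `S x` the spherical Hecke algebra at `x` (a commutative algebra with involution), `T x`
its star representation on the Hilbert space `H = L²(Bun_G(F_q))`, `O` the finite set of nilpotent orbits and `R x o`
the set `R_{q_x, o}` of the question, a set of algebra homomorphisms `S x → ℂ` (points of `Ǧ // Ad Ǧ`). The facts used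
about it: it is compact and consists of star homomorphisms, and for distinct orbits the sets at one fixed place
`x₀` are disjoint.

Theorem. The following are equivalent.

1. Arthur's decomposition (Q1 for the given curve and group): `H` is the orthogonal sum of closed invariant subspaces
   `W o`, such that for every place `x` the spectrum of `S x` on `W o` is contained in `R x o`.
2. For every place `y` and all hermitian `a` in `S x₀`, `b` in `S y`: the self-adjoint operator `T_a + T_b` is bounded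
   below by the least value of `φ(a) + φ'(b)` for `φ` in `R x₀ o`, `φ'` in `R y o`, `o` in `O`.
3. The same only for sums of squares with rational data, tested on a dense set of vectors: for all `u_i` in a rational
   form `Q x₀`, `v_j` in a rational form `Q y`, rational `m` and `f` in a dense set `D`,
   `m ‖f‖² ≤ Σ ‖T(u_i) f‖² + Σ ‖T(v_j) f‖²` as soon as `m ≤ Σ |φ(u_i)|² + Σ |φ'(v_j)|²` for all `o`,
   `φ` in `R x₀ o`, `φ'` in `R y o`.

With `D` the functions with finite support and values in `ℚ(i)` and `Q x` the `ℚ(i)`-valued spherical functions every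
inequality in 3 concerns finitely many bundles and rational numbers. So the question is about one fixed place and one
further place at a time, and if its answer for a curve and a group is negative, then this has a finite certificate.
-/

open scoped ComplexConjugate InnerProductSpace

namespace Pool.Agent.Results.MP_de7261_nt.TwoPlaceInequalities

universe u v w z

variable {H : Type u} [NormedAddCommGroup H] [InnerProductSpace ℂ H] [CompleteSpace H]
variable {X : Type w} {S : X → Type v} [∀ x, CommRing (S x)] [∀ x, Algebra ℂ (S x)]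
  [∀ x, StarRing (S x)]
variable {O : Type z}

/-- The spectrum on `W` of the Hecke algebra at `x`: the homomorphisms `φ` with `|φ(a)| ≤ ‖T(a) on W‖` for all `a`,
that is, those which extend to the closure of the operators `T(a)` on `W`. -/
def Spec (T : ∀ x, S x →⋆ₐ[ℂ] (H →L[ℂ] H)) (x : X) (W : Submodule ℂ H) : Set (S x →ₐ[ℂ] ℂ) :=
  {φ | ∀ (a : S x) (M : ℝ), 0 ≤ M → (∀ v ∈ W, ‖T x a v‖ ≤ M * ‖v‖) → ‖φ a‖ ≤ M}

/-- Arthur's decomposition: `H` is the orthogonal sum of closed invariant subspaces `W o` with spectrum at every place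
`x` in `R x o`. -/
def Decomposition [Fintype O] (T : ∀ x, S x →⋆ₐ[ℂ] (H →L[ℂ] H))
    (R : ∀ x, O → Set (S x →ₐ[ℂ] ℂ)) : Prop :=
  ∃ W : O → Submodule ℂ H, (∀ o, IsClosed (W o : Set H)) ∧
    (∀ o x a, ∀ v ∈ W o, T x a v ∈ W o) ∧
    (∀ o o', o ≠ o' → ∀ v ∈ W o, ∀ w ∈ W o', ⟪v, w⟫_ℂ = 0) ∧
    (∀ v, ∃ w : O → H, (∀ o, w o ∈ W o) ∧ ∑ o, w o = v) ∧
    ∀ o x, Spec T x (W o) ⊆ R x o

/-- For all hermitian `a` at `x₀` and `b` at `y`, the operator `T_a + T_b` is at least the least value of
`φ(a) + φ'(b)` on the sets `R x₀ o × R y o`. -/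
def HermitianInequalities (T : ∀ x, S x →⋆ₐ[ℂ] (H →L[ℂ] H))
    (R : ∀ x, O → Set (S x →ₐ[ℂ] ℂ)) (x₀ : X) : Prop :=
  ∀ (y : X) (a : S x₀) (b : S y), star a = a → star b = b → ∀ m : ℝ,
    (∀ o, ∀ φ ∈ R x₀ o, ∀ φ' ∈ R y o, m ≤ (φ a).re + (φ' b).re) →
    ∀ f : H, m * ‖f‖ ^ 2 ≤ (⟪T x₀ a f + T y b f, f⟫_ℂ).re

/-- The inequalities for sums of squares with elements in `Q`, rational bounds and vectors in `D`. -/
def FiniteInequalities (T : ∀ x, S x →⋆ₐ[ℂ] (H →L[ℂ] H))
    (R : ∀ x, O → Set (S x →ₐ[ℂ] ℂ)) (x₀ : X) (Q : ∀ x, AddSubgroup (S x)) (D : Set H) : Prop :=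
  ∀ (y : X) (k l : ℕ) (u : Fin k → S x₀) (v : Fin l → S y),
    (∀ i, u i ∈ Q x₀) → (∀ j, v j ∈ Q y) → ∀ m : ℚ,
    (∀ o, ∀ φ ∈ R x₀ o, ∀ φ' ∈ R y o,
      (m : ℝ) ≤ ∑ i, ‖φ (u i)‖ ^ 2 + ∑ j, ‖φ' (v j)‖ ^ 2) →
    ∀ f ∈ D, (m : ℝ) * ‖f‖ ^ 2 ≤ ∑ i, ‖T x₀ (u i) f‖ ^ 2 + ∑ j, ‖T y (v j) f‖ ^ 2

/-- **Arthur's decomposition holds if and only if `T_a + T_b` is bounded below by the least value of
`φ(a) + φ'(b)` on the sets `R_{x₀, o} × R_{y, o}` for all hermitian `a` at one fixed place `x₀` and `b` at one further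
place `y`, and it is enough that this holds for sums of squares with rational data on a dense set of vectors.** -/
theorem result [Fintype O] (T : ∀ x, S x →⋆ₐ[ℂ] (H →L[ℂ] H))
    (hc : ∀ x y a b, T x a * T y b = T y b * T x a)
    (R : ∀ x, O → Set (S x →ₐ[ℂ] ℂ))
    (hR : ∀ x o, IsCompact ((fun (φ : S x →ₐ[ℂ] ℂ) (a : S x) => φ a) '' R x o))
    (hstar : ∀ x o, ∀ φ ∈ R x o, ∀ a, φ (star a) = conj (φ a))
    (x₀ : X) (hd : ∀ o o', o ≠ o' → Disjoint (R x₀ o) (R x₀ o'))
    (Q : ∀ x, AddSubgroup (S x)) (hspan : ∀ x, Submodule.span ℂ (Q x : Set (S x)) = ⊤)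
    (hq : ∀ x, ∀ r s : ℚ, algebraMap ℂ (S x) ((r : ℂ) + (s : ℂ) * Complex.I) ∈ Q x)
    (D : Set H) (hD : Dense D) :
    List.TFAE [Decomposition T R, HermitianInequalities T R x₀,
      FiniteInequalities T R x₀ Q D] := by
  tfae_have 1 → 2 := by
    rintro ⟨W, h1, h2, h3, h4, h5⟩ y a b ha hb m hm f
    exact Run7.h902.ArthurTwo.form_of_decomp T hc R W h1 h2 h3 h4
      (fun o x φ hφ => h5 o x hφ) x₀ y a b ha hb m hm f
  tfae_have 2 → 3 := by
    intro h y k l u v _ _ m hm f _
    have hs0 : ∀ o, ∀ φ ∈ R x₀ o, (φ (∑ i, star (u i) * u i)).re = ∑ i, ‖φ (u i)‖ ^ 2 := by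
      intro o φ hφ
      rw [map_sum, Complex.re_sum]
      refine Finset.sum_congr rfl fun i _ => ?_
      rw [map_mul, hstar x₀ o φ hφ, ← Complex.normSq_eq_conj_mul_self, Complex.ofReal_re,
        Complex.normSq_eq_norm_sq]
    have hs1 : ∀ o, ∀ φ ∈ R y o, (φ (∑ i, star (v i) * v i)).re = ∑ i, ‖φ (v i)‖ ^ 2 := by
      intro o φ hφ
      rw [map_sum, Complex.re_sum]
      refine Finset.sum_congr rfl fun i _ => ?_
      rw [map_mul, hstar y o φ hφ, ← Complex.normSq_eq_conj_mul_self, Complex.ofReal_re,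
        Complex.normSq_eq_norm_sq]
    have h1 := h y (∑ i, star (u i) * u i) (∑ j, star (v j) * v j)
      (by rw [star_sum]; exact Finset.sum_congr rfl fun i _ => by rw [star_mul, star_star])
      (by rw [star_sum]; exact Finset.sum_congr rfl fun i _ => by rw [star_mul, star_star])
      m (fun o φ hφ φ' hφ' => by rw [hs0 o φ hφ, hs1 o φ' hφ']; exact hm o φ hφ φ' hφ') f
    refine h1.trans (le_of_eq ?_)
    rw [map_sum, map_sum, sum_apply, sum_apply, inner_add_left, sum_inner, sum_inner,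
      Complex.add_re, Complex.re_sum, Complex.re_sum]
    congr 1
    · refine Finset.sum_congr rfl fun i _ => ?_
      rw [map_mul, map_star]
      exact Run7.h902.ArthurTwo.form_star_mul _ f
    · refine Finset.sum_congr rfl fun i _ => ?_
      rw [map_mul, map_star]
      exact Run7.h902.ArthurTwo.form_star_mul _ f
  tfae_have 3 → 1 := by
    intro h
    obtain ⟨W, h1, h2, h3, h4, h5⟩ := Run7.h902.ArthurTwo.exists_decomp T hc R hR hstar x₀ hd
      (Run7.h902.ArthurTwo.label_of_finite T hc R hR Q hspan hq x₀ D hD h)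
    exact ⟨W, h1, h2, h3, h4, fun o x φ hφ => h5 o x φ hφ⟩
  tfae_finish

end Pool.Agent.Results.MP_de7261_nt.TwoPlaceInequalities
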